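import Mathlib

set_option autoImplicit false

/-!
# The degree of the iterated local permutation polynomial (MP_df70bc_co), q = 7, n = 10
-/

namespace Pool.Agent.Results.MP_df70bc_co.SevenTen

open MvPolynomial

/-- The polynomial `t(x) = x + ∑_{k=0}^{q-2} x^k`, `q` the number of elements of `K`. -/
noncomputable def tPoly (K : Type) [Field K] [Fintype K] : Polynomial K :=
  Polynomial.X + ∑ k ∈ Finset.range (Fintype.card K - 1), Polynomial.X ^ k

/-- `f 0, f 1, ..., f (n-1)` are the polynomials `f_1, ..., f_n` of the problem (the variables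
`x_1, ..., x_n` are numbered from `0`): each is reduced, the first one is `x_1`, and
`f_{i+1}` has the same values as `t(f_i ^ (q-2) + x_{i+1} ^ (q-2))`. -/
structure IsSeq (K : Type) [Field K] [Fintype K] (n : ℕ) (f : Fin n → MvPolynomial (Fin n) K) :
    Prop where
  reduced : ∀ i j, (f i).degreeOf j < Fintype.card K
  first : ∀ h : 0 < n, f ⟨0, h⟩ = X ⟨0, h⟩
  step : ∀ (i : ℕ) (h : i + 1 < n) (x : Fin n → K),
    eval x (f ⟨i + 1, h⟩) = eval x (Polynomial.aeval
      (f ⟨i, Nat.lt_of_succ_lt h⟩ ^ (Fintype.card K - 2) +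
        (X ⟨i + 1, h⟩ : MvPolynomial (Fin n) K) ^ (Fintype.card K - 2)) (tPoly K))

instance : Fact (Nat.Prime 7) := ⟨by norm_num⟩

/-- the transposition of `0` and `1` -/
def tf (x : ZMod 7) : ZMod 7 := x + (1 + x + x ^ 2 + x ^ 3 + x ^ 4 + x ^ 5)

theorem tf_bij : Function.Bijective tf := by decide

theorem pow5_bij : Function.Bijective (fun x : ZMod 7 => x ^ 5) := by decide

theorem eval_tPoly {σ : Type} (x : σ → ZMod 7) (P : MvPolynomial σ (ZMod 7)) :
    eval x (Polynomial.aeval P (tPoly (ZMod 7))) = tf (eval x P) := by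
  have h : Fintype.card (ZMod 7) = 7 := ZMod.card 7
  rw [tPoly, h]
  simp [Finset.sum_range_succ, tf]

/-- the iteration, starting from the value `u` -/
def G : (n : ℕ) → ZMod 7 → (Fin n → ZMod 7) → ZMod 7
  | 0, u, _ => u
  | n + 1, u, x => G n (tf (u ^ 5 + x 0 ^ 5)) (Fin.tail x)

/-- the transfer operator -/
def T (g : ZMod 7 → ZMod 7) (u : ZMod 7) : ZMod 7 :=
  ∑ y : ZMod 7, y * g (tf (u ^ 5 + y ^ 5))

theorem sum_G (g : ZMod 7 → ZMod 7) : ∀ (n : ℕ) (u : ZMod 7),
    ∑ x : Fin n → ZMod 7, g (G n u x) * ∏ i, x i = (T^[n] g) u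
  | 0, u => by simp [G]
  | n + 1, u => by
    rw [← (Fin.consEquiv (fun _ : Fin (n + 1) => ZMod 7)).sum_comp, Fintype.sum_prod_type,
      Function.iterate_succ_apply', T]
    refine Finset.sum_congr rfl fun y _ => ?_
    rw [← sum_G g n, Finset.mul_sum]
    refine Finset.sum_congr rfl fun x _ => ?_
    rw [Fin.prod_univ_succ]
    simp only [Fin.consEquiv, Equiv.coe_fn_mk, Fin.cons_zero, Fin.cons_succ, G, Fin.tail_cons]
    ring

/-- the dual weights -/
def w (j : ℕ) (a : ZMod 7) : ZMod 7 := if j = 0 then 1 - a ^ 6 else - a ^ (6 - j)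

theorem w_dual : ∀ j < 7, ∀ k < 7, ∑ a : ZMod 7, a ^ k * w j a = if k = j then 1 else 0 := by
  decide

theorem coeff_eq {n : ℕ} (P : MvPolynomial (Fin n) (ZMod 7)) (hP : ∀ j, P.degreeOf j < 7)
    (m : Fin n →₀ ℕ) (hm : ∀ i, m i < 7) :
    P.coeff m = ∑ x : Fin n → ZMod 7, eval x P * ∏ i, w (m i) (x i) := by
  have h1 : ∀ x : Fin n → ZMod 7, eval x P * ∏ i, w (m i) (x i) =
      ∑ k ∈ P.support, P.coeff k * ∏ i, (x i ^ k i * w (m i) (x i)) := by
    intro x
    rw [eval_eq', Finset.sum_mul]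
    refine Finset.sum_congr rfl fun k _ => ?_
    rw [Finset.prod_mul_distrib]
    ring
  simp_rw [h1]
  rw [Finset.sum_comm]
  have h2 : ∀ k ∈ P.support, ∑ x : Fin n → ZMod 7,
      P.coeff k * ∏ i, (x i ^ k i * w (m i) (x i)) = if k = m then P.coeff k else 0 := by
    intro k hk
    rw [← Finset.mul_sum]
    have h3 : ∑ x : Fin n → ZMod 7, ∏ i, (x i ^ k i * w (m i) (x i)) =
        ∏ i, ∑ a : ZMod 7, a ^ k i * w (m i) a := by
      rw [Finset.prod_univ_sum]
      rfl
    have h4 : ∀ i, k i < 7 := fun i =>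
      lt_of_le_of_lt (by rw [degreeOf_eq_sup]; exact Finset.le_sup (f := fun d => d i) hk) (hP i)
    rw [h3, Finset.prod_congr rfl (fun i _ => w_dual (m i) (hm i) (k i) (h4 i))]
    by_cases hkm : k = m
    · subst hkm
      simp
    · rw [if_neg hkm]
      obtain ⟨i, hi⟩ : ∃ i, k i ≠ m i := by
        by_contra hcon
        push Not at hcon
        exact hkm (Finsupp.ext hcon)
      rw [Finset.prod_eq_zero (Finset.mem_univ i) (by rw [if_neg hi]), mul_zero]
  rw [Finset.sum_congr rfl h2, Finset.sum_ite_eq']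
  split_ifs with h
  · rfl
  · rwa [notMem_support_iff] at h

/-- the values of the polynomials -/
theorem values {n : ℕ} (f : Fin n → MvPolynomial (Fin n) (ZMod 7)) (hf : IsSeq (ZMod 7) n f)
    (i : ℕ) (h : i + 1 < n) (x : Fin n → ZMod 7) :
    eval x (f ⟨i + 1, h⟩) = tf ((eval x (f ⟨i, Nat.lt_of_succ_lt h⟩)) ^ 5 + x ⟨i + 1, h⟩ ^ 5) := by
  rw [hf.step i h x, eval_tPoly]
  simp [ZMod.card]

/-- `f_i` does not depend on the variables with index larger than `i` -/
theorem indep {n : ℕ} (f : Fin n → MvPolynomial (Fin n) (ZMod 7)) (hf : IsSeq (ZMod 7) n f) :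
    ∀ (i : ℕ) (h : i < n) (j : Fin n), i < j → ∀ (x : Fin n → ZMod 7) (a : ZMod 7),
      eval (Function.update x j a) (f ⟨i, h⟩) = eval x (f ⟨i, h⟩)
  | 0, h, j, hj, x, a => by
    rw [hf.first h, eval_X, eval_X, Function.update_of_ne]
    intro h2
    rw [← h2] at hj
    exact absurd hj (lt_irrefl _)
  | i + 1, h, j, hj, x, a => by
    rw [values f hf i h, values f hf i h, indep f hf i _ j (by omega), Function.update_of_ne]
    intro h2
    rw [← h2] at hj
    exact absurd hj (lt_irrefl _)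

/-- local permutation property -/
theorem lpp {n : ℕ} (f : Fin n → MvPolynomial (Fin n) (ZMod 7)) (hf : IsSeq (ZMod 7) n f) :
    ∀ (i : ℕ) (h : i < n) (j : Fin n), (j : ℕ) ≤ i → ∀ (x : Fin n → ZMod 7),
      Function.Bijective (fun a => eval (Function.update x j a) (f ⟨i, h⟩))
  | 0, h, j, hj, x => by
    have h1 : j = ⟨0, h⟩ := Fin.ext (by simpa using hj)
    subst h1
    simp only [hf.first h, eval_X, Function.update_self]
    exact Function.bijective_id
  | i + 1, h, j, hj, x => by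
    simp only [values f hf i h]
    refine tf_bij.comp ?_
    by_cases hij : (j : ℕ) = i + 1
    · have h1 : j = ⟨i + 1, h⟩ := Fin.ext hij
      subst h1
      simp only [Function.update_self]
      have h2 : ∀ a, eval (Function.update x ⟨i + 1, h⟩ a) (f ⟨i, Nat.lt_of_succ_lt h⟩) =
        eval x (f ⟨i, Nat.lt_of_succ_lt h⟩) := fun a => indep f hf i _ _ (Nat.lt_succ_self i) x a
      simp only [h2]
      exact (AddGroup.addLeft_bijective _).comp pow5_bij
    · have h2 : ∀ a, Function.update x j a ⟨i + 1, h⟩ = x ⟨i + 1, h⟩ := fun a =>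
        Function.update_of_ne (by rintro rfl; exact hij rfl) _ _
      simp only [h2]
      exact (AddGroup.addRight_bijective _).comp
        (pow5_bij.comp (lpp f hf i _ j (by omega) x))

theorem sum_univ_seven : ∑ a : ZMod 7, a = 0 := by decide

/-- no variable has degree `q - 1 = 6` -/
theorem coeff_six {n : ℕ} (f : Fin n → MvPolynomial (Fin n) (ZMod 7)) (hf : IsSeq (ZMod 7) n f)
    (i : ℕ) (h : i < n) (j : Fin n) (hj : (j : ℕ) ≤ i) (m : Fin n →₀ ℕ) (hm : ∀ i, m i < 7)
    (hmj : m j = 6) : (f ⟨i, h⟩).coeff m = 0 := by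
  have hred : ∀ j, (f ⟨i, h⟩).degreeOf j < 7 := fun j => by
    have := hf.reduced ⟨i, h⟩ j
    rwa [ZMod.card] at this
  rw [coeff_eq _ hred m hm, ← (Equiv.funSplitAt j (ZMod 7)).symm.sum_comp,
    Fintype.sum_prod_type, Finset.sum_comm]
  refine Finset.sum_eq_zero fun y _ => ?_
  have h1 : ∀ a : ZMod 7, (Equiv.funSplitAt j (ZMod 7)).symm (a, y) =
      Function.update ((Equiv.funSplitAt j (ZMod 7)).symm (0, y)) j a := by
    intro a
    funext k
    by_cases hk : k = j
    · subst hk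
      simp
    · simp [hk]
  set x := (Equiv.funSplitAt j (ZMod 7)).symm (0, y) with hx
  have h2 : ∀ a : ZMod 7, ∏ k, w (m k) (Function.update x j a k) =
      - ∏ k ∈ Finset.univ.erase j, w (m k) (x k) := by
    intro a
    rw [← Finset.mul_prod_erase _ _ (Finset.mem_univ j), Function.update_self, hmj]
    have h3 : ∏ k ∈ Finset.univ.erase j, w (m k) (Function.update x j a k) =
        ∏ k ∈ Finset.univ.erase j, w (m k) (x k) :=
      Finset.prod_congr rfl fun k hk => by
        rw [Function.update_of_ne (Finset.ne_of_mem_erase hk)]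
    rw [h3]
    simp [w]
  simp_rw [h1, h2]
  rw [← Finset.sum_mul, (lpp f hf i h j hj x).sum_comp (fun a => a), sum_univ_seven, zero_mul]

/-- a function given by its table of values -/
def tab (l : List (ZMod 7)) (u : ZMod 7) : ZMod 7 := l.getD u.val 0

theorem T_iter : ∑ y : ZMod 7, y * (T^[9] id) y = 0 := by
  have e1 : T id = tab [5, 5, 2, 5, 3, 5, 3] := by
    funext u; revert u; decide
  have e2 : T (tab [5, 5, 2, 5, 3, 5, 3]) = tab [0, 2, 4, 1, 2, 5, 0] := by
    funext u; revert u; decide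
  have e3 : T (tab [0, 2, 4, 1, 2, 5, 0]) = tab [5, 5, 5, 3, 5, 1, 4] := by
    funext u; revert u; decide
  have e4 : T (tab [5, 5, 5, 3, 5, 1, 4]) = tab [0, 2, 1, 0, 4, 0, 0] := by
    funext u; revert u; decide
  have e5 : T (tab [0, 2, 1, 0, 4, 0, 0]) = tab [5, 5, 6, 6, 1, 0, 5] := by
    funext u; revert u; decide
  have e6 : T (tab [5, 5, 6, 6, 1, 0, 5]) = tab [0, 3, 4, 2, 2, 3, 0] := by
    funext u; revert u; decide
  have e7 : T (tab [0, 3, 4, 2, 2, 3, 0]) = tab [4, 4, 0, 3, 6, 2, 2] := by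
    funext u; revert u; decide
  have e8 : T (tab [4, 4, 0, 3, 6, 2, 2]) = tab [0, 6, 0, 6, 0, 2, 0] := by
    funext u; revert u; decide
  have e9 : T (tab [0, 6, 0, 6, 0, 2, 0]) = tab [1, 1, 5, 0, 6, 6, 2] := by
    funext u; revert u; decide
  have h : (T^[9] id) = tab [1, 1, 5, 0, 6, 6, 2] := by
    change T (T (T (T (T (T (T (T (T id)))))))) = _
    rw [e1, e2, e3, e4, e5, e6, e7, e8, e9]
  rw [h]
  decide

theorem eval_last (f : Fin 10 → MvPolynomial (Fin 10) (ZMod 7)) (hf : IsSeq (ZMod 7) 10 f)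
    (x : Fin 10 → ZMod 7) : eval x (f 9) = G 9 (x 0) (Fin.tail x) := by
  have h0 : eval x (f 0) = x 0 := by
    have := hf.first (by norm_num)
    change f 0 = X 0 at this
    rw [this, eval_X]
  have h := fun i h => values f hf i h x
  have h1 := h 0 (by norm_num)
  have h2 := h 1 (by norm_num)
  have h3 := h 2 (by norm_num)
  have h4 := h 3 (by norm_num)
  have h5 := h 4 (by norm_num)
  have h6 := h 5 (by norm_num)
  have h7 := h 6 (by norm_num)
  have h8 := h 7 (by norm_num)
  have h9 := h 8 (by norm_num)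
  change eval x (f 1) = tf (eval x (f 0) ^ 5 + x 1 ^ 5) at h1
  change eval x (f 2) = tf (eval x (f 1) ^ 5 + x 2 ^ 5) at h2
  change eval x (f 3) = tf (eval x (f 2) ^ 5 + x 3 ^ 5) at h3
  change eval x (f 4) = tf (eval x (f 3) ^ 5 + x 4 ^ 5) at h4
  change eval x (f 5) = tf (eval x (f 4) ^ 5 + x 5 ^ 5) at h5
  change eval x (f 6) = tf (eval x (f 5) ^ 5 + x 6 ^ 5) at h6
  change eval x (f 7) = tf (eval x (f 6) ^ 5 + x 7 ^ 5) at h7
  change eval x (f 8) = tf (eval x (f 7) ^ 5 + x 8 ^ 5) at h8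
  change eval x (f 9) = tf (eval x (f 8) ^ 5 + x 9 ^ 5) at h9
  rw [h9, h8, h7, h6, h5, h4, h3, h2, h1, h0]
  rfl

theorem coeff_top (f : Fin 10 → MvPolynomial (Fin 10) (ZMod 7)) (hf : IsSeq (ZMod 7) 10 f)
    (m : Fin 10 →₀ ℕ) (hm : ∀ i, m i = 5) : (f 9).coeff m = 0 := by
  have hred : ∀ j, (f 9).degreeOf j < 7 := fun j => by
    have := hf.reduced 9 j
    rwa [ZMod.card] at this
  rw [coeff_eq _ hred m (fun i => by rw [hm i]; norm_num)]
  simp_rw [hm, eval_last f hf]
  have h1 : ∀ x : Fin 10 → ZMod 7, ∏ i, w 5 (x i) = ∏ i, x i := by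
    intro x
    have : ∀ a : ZMod 7, w 5 a = - a := by decide
    simp_rw [this]
    rw [Finset.prod_neg, Finset.card_univ, Fintype.card_fin, Even.neg_one_pow (by decide), one_mul]
  simp_rw [h1]
  have h2 := sum_G id 9
  rw [← (Fin.consEquiv (fun _ : Fin 10 => ZMod 7)).sum_comp, Fintype.sum_prod_type,
    ← T_iter]
  refine Finset.sum_congr rfl fun y _ => ?_
  rw [← h2, Finset.mul_sum]
  refine Finset.sum_congr rfl fun x _ => ?_
  rw [Fin.prod_univ_succ]
  simp only [Fin.consEquiv, Equiv.coe_fn_mk, Fin.cons_zero, Fin.cons_succ, Fin.tail_cons, id]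
  ring

theorem degree_lt (f : Fin 10 → MvPolynomial (Fin 10) (ZMod 7)) (hf : IsSeq (ZMod 7) 10 f) :
    (f 9).totalDegree < 10 * (7 - 2) := by
  rw [totalDegree, Finset.sup_lt_iff (by norm_num)]
  intro m hm
  have hred : ∀ j, m j < 7 := fun j => by
    have h1 := hf.reduced 9 j
    rw [ZMod.card] at h1
    exact lt_of_le_of_lt (by rw [degreeOf_eq_sup]; exact Finset.le_sup (f := fun d => d j) hm) h1
  have h5 : ∀ j, m j ≤ 5 := by
    intro j
    by_contra hcon
    have h6 : m j = 6 := by have := hred j; omega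
    exact (mem_support_iff.1 hm) (coeff_six f hf 9 (by norm_num) j (by omega) m hred h6)
  by_contra hcon
  rw [Finsupp.sum_fintype _ _ (fun _ => rfl)] at hcon
  have hall : ∀ j, m j = 5 := by
    by_contra hne
    push Not at hne
    obtain ⟨j, hj⟩ := hne
    have h6 : ∑ i, m i < ∑ _i : Fin 10, 5 :=
      Finset.sum_lt_sum (fun i _ => h5 i) ⟨j, Finset.mem_univ j, lt_of_le_of_ne (h5 j) hj⟩
    simp at h6
    omega
  exact (mem_support_iff.1 hm) (coeff_top f hf m hall)

/-- Every function is represented by a reduced polynomial. -/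
theorem exists_reduced {K : Type} [Field K] [Fintype K] (n : ℕ) (F : (Fin n → K) → K) :
    ∃ P : MvPolynomial (Fin n) K, (∀ j, P.degreeOf j < Fintype.card K) ∧ ∀ x, eval x P = F x := by
  have h := map_restrict_dom_evalₗ K (Fin n)
  have hF : F ∈ (restrictDegree (Fin n) K (Fintype.card K - 1)).map (evalₗ K (Fin n)) := by
    rw [h]; trivial
  obtain ⟨P, hP, hPF⟩ := hF
  refine ⟨P, fun j => ?_, fun x => ?_⟩
  · have hc : 0 < Fintype.card K := Fintype.card_pos
    rw [degreeOf_eq_sup, Finset.sup_lt_iff hc]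
    intro m hm
    have := (mem_restrictDegree (Fin n) P _).1 hP m hm j
    omega
  · rw [← hPF]; rfl

theorem exists_seq {K : Type} [Field K] [Fintype K] (n : ℕ) (hK : 2 ≤ Fintype.card K) :
    ∃ f : Fin n → MvPolynomial (Fin n) K, IsSeq K n f := by
  have key : ∀ m : ℕ, ∃ f : ℕ → MvPolynomial (Fin n) K,
      (∀ i j, (f i).degreeOf j < Fintype.card K) ∧ (∀ h : 0 < n, f 0 = X ⟨0, h⟩) ∧
      ∀ (i : ℕ) (h : i + 1 < n) (_ : i < m) (x : Fin n → K),
        eval x (f (i + 1)) = eval x (Polynomial.aeval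
          (f i ^ (Fintype.card K - 2) +
            (X ⟨i + 1, h⟩ : MvPolynomial (Fin n) K) ^ (Fintype.card K - 2)) (tPoly K)) := by
    intro m
    induction m with
    | zero =>
      by_cases hn : 0 < n
      · refine ⟨fun _ => X ⟨0, hn⟩, fun i j => ?_, fun _ => rfl, fun i _ h => absurd h (by omega)⟩
        refine lt_of_le_of_lt (degreeOf_le_totalDegree _ _) ?_
        rw [totalDegree_X]
        omega
      · exact ⟨fun _ => 0, fun i j => by rw [degreeOf_zero]; omega, fun h => absurd h hn,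
          fun i _ h => absurd h (by omega)⟩
    | succ m ih =>
      obtain ⟨f, h1, h2, h3⟩ := ih
      by_cases hm : m + 1 < n
      · obtain ⟨P, hP1, hP2⟩ := exists_reduced n (fun x : Fin n → K =>
          eval x (Polynomial.aeval (f m ^ (Fintype.card K - 2) +
            (X ⟨m + 1, hm⟩ : MvPolynomial (Fin n) K) ^ (Fintype.card K - 2)) (tPoly K)))
        refine ⟨Function.update f (m + 1) P, fun i j => ?_, fun h => ?_, fun i h him x => ?_⟩
        · by_cases hi : i = m + 1
          · subst hi; rw [Function.update_self]; exact hP1 j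
          · rw [Function.update_of_ne hi]; exact h1 i j
        · rw [Function.update_of_ne (by omega)]; exact h2 h
        · rw [Function.update_of_ne (show i ≠ m + 1 by omega)]
          by_cases hi : i = m
          · subst hi
            rw [Function.update_self]
            exact hP2 x
          · rw [Function.update_of_ne (by omega)]
            exact h3 i h (by omega) x
      · exact ⟨f, h1, h2, fun i h him x => h3 i h (by omega) x⟩
  obtain ⟨f, h1, h2, h3⟩ := key n
  exact ⟨fun i => f i, fun i j => h1 i j, fun h => h2 h, fun i h x => h3 i h (by omega) x⟩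

/-- For `q = 7` and `n = 10` the polynomial `f_10` has degree less than `n (q - 2) = 50`. -/
theorem result : (∃ f : Fin 10 → MvPolynomial (Fin 10) (ZMod 7), IsSeq (ZMod 7) 10 f) ∧
    ∀ f : Fin 10 → MvPolynomial (Fin 10) (ZMod 7), IsSeq (ZMod 7) 10 f →
      (f 9).totalDegree < 10 * (7 - 2) :=
  ⟨exists_seq 10 (by rw [ZMod.card]; norm_num), degree_lt⟩

end Pool.Agent.Results.MP_df70bc_co.SevenTen
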